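import Pool.Agent.Central.Final

/-!
MP_a217f7_co.  Every nonempty finite poset has an element that is contained in at least a
fraction `4/23` and at most a fraction `19/23` of all its order ideals.
-/

set_option autoImplicit false

namespace Pool.Agent.Results.MP_a217f7_co.CentralElement

/-- The property of the frozen statement holds with `r = 23/4 = 5.75`. -/
theorem result (P : Type) [Fintype P] [Nonempty P] [PartialOrder P] :
    ∃ x : P,
      ((Set.ncard {s : Set P | IsLowerSet s} : ℕ) : ℝ) / (23 / 4) ≤
        ((Set.ncard {s : Set P | IsLowerSet s ∧ x ∈ s} : ℕ) : ℝ) ∧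
      ((Set.ncard {s : Set P | IsLowerSet s ∧ x ∈ s} : ℕ) : ℝ) ≤
        (1 - 1 / (23 / 4)) * ((Set.ncard {s : Set P | IsLowerSet s} : ℕ) : ℝ) :=
  Pool.Agent.Central.final_sets P

end Pool.Agent.Results.MP_a217f7_co.CentralElement
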