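import Pool.Agent.CrownF.Sharp

/-!
MP_a217f7_co.  Posets without crowns: some element lies in at least `(N + 1)/4` and at most
`(3 N - 1)/4` of the `N` order ideals, with equality for infinitely many posets.
-/

set_option autoImplicit false

namespace Pool.Agent.Results.MP_a217f7_co.CrownFree

open Pool.Agent.CrownF

theorem result :
    -- posets without crowns, and more generally posets with tight cuts
    (∀ (P : Type) [Fintype P] [Nonempty P] [PartialOrder P], (¬ HasCrown P ∨ TightCuts P) →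
      ∀ A : ℝ, 1 / 2 ≤ A → A ≤ ((Set.ncard {s : Set P | IsLowerSet s} : ℕ) : ℝ) / 2 →
        ∃ x : P,
          A ≤ ((Set.ncard {s : Set P | IsLowerSet s ∧ x ∈ s} : ℕ) : ℝ) ∧
          ((Set.ncard {s : Set P | IsLowerSet s ∧ x ∈ s} : ℕ) : ℝ) ≤
            A + (((Set.ncard {s : Set P | IsLowerSet s} : ℕ) : ℝ) - 1) / 2) ∧
    -- the case `A = (N + 1)/4`
    (∀ (P : Type) [Fintype P] [Nonempty P] [PartialOrder P], (¬ HasCrown P ∨ TightCuts P) →
        ∃ x : P,
          Set.ncard {s : Set P | IsLowerSet s} + 1 ≤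
            4 * Set.ncard {s : Set P | IsLowerSet s ∧ x ∈ s} ∧
          4 * Set.ncard {s : Set P | IsLowerSet s ∧ x ∈ s} + 1 ≤
            3 * Set.ncard {s : Set P | IsLowerSet s}) ∧
    -- interval dimension at most two (this contains dimension at most two and interval orders)
    (∀ (P : Type) [PartialOrder P], IntervalDimTwo P → ¬ HasCrown P) ∧
    -- posets without crowns have tight cuts
    (∀ (P : Type) [Fintype P] [PartialOrder P], ¬ HasCrown P → TightCuts P) ∧
    -- lexicographic sums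
    (∀ (Q : Type) [Fintype Q] [PartialOrder Q] (P : Q → Type) [∀ q, Fintype (P q)]
      [∀ q, Nonempty (P q)] [∀ q, PartialOrder (P q)], TightCuts Q → (∀ q, TightCuts (P q)) →
        TightCuts (Σₗ q, P q)) ∧
    -- sharpness, already for posets of dimension at most two
    (∀ w : ℕ, ∃ (P : Type) (_ : Fintype P) (_ : Nonempty P) (_ : PartialOrder P),
      (∃ f g : P → ℝ, ∀ p q : P, p < q ↔ (f p < f q ∧ g p < g q)) ∧
      Set.ncard {s : Set P | IsLowerSet s} = 2 ^ (w + 2) - 1 ∧
      ∀ x : P,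
        Set.ncard {s : Set P | IsLowerSet s ∧ x ∈ s} = 2 ^ w ∨
        Set.ncard {s : Set P | IsLowerSet s ∧ x ∈ s} = 3 * 2 ^ w - 1) := by
  have main : ∀ (P : Type) [Fintype P] [Nonempty P] [PartialOrder P],
      (¬ HasCrown P ∨ TightCuts P) →
      ∀ A : ℝ, 1 / 2 ≤ A → A ≤ ((Set.ncard {s : Set P | IsLowerSet s} : ℕ) : ℝ) / 2 →
        ∃ x : P,
          A ≤ ((Set.ncard {s : Set P | IsLowerSet s ∧ x ∈ s} : ℕ) : ℝ) ∧
          ((Set.ncard {s : Set P | IsLowerSet s ∧ x ∈ s} : ℕ) : ℝ) ≤
            A + (((Set.ncard {s : Set P | IsLowerSet s} : ℕ) : ℝ) - 1) / 2 := by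
    intro P _ _ _ hP A h0 h1
    have hT : TightCuts P := by
      rcases hP with h | h
      · exact tight_of_crownFree h
      · exact h
    have h1' : A ≤ Pool.Agent.FewCovers.NI P / 2 := by
      unfold Pool.Agent.FewCovers.NI
      rw [Pool.Agent.FewCovers.cnt_eq]
      exact h1
    obtain ⟨x, h2, h3⟩ := window hT A h0 h1'
    unfold Pool.Agent.FewCovers.NX at h2 h3
    unfold Pool.Agent.FewCovers.NI at h3
    rw [Pool.Agent.FewCovers.cnt_eq] at h2
    rw [Pool.Agent.FewCovers.cnt_eq, Pool.Agent.FewCovers.cnt_eq] at h3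
    exact ⟨x, h2, h3⟩
  refine ⟨main, ?_, ?_, ?_, ?_, ?_⟩
  · intro P _ _ _ hP
    -- there are at least two ideals
    have h2 : 2 ≤ Set.ncard {s : Set P | IsLowerSet s} := by
      have hne : (∅ : Set P) ≠ Set.univ := by
        intro h
        have : Classical.arbitrary P ∈ (∅ : Set P) := by rw [h]; trivial
        exact this
      have hsub : ({∅, Set.univ} : Set (Set P)) ⊆ {s : Set P | IsLowerSet s} := by
        rintro s (rfl | rfl)
        · exact isLowerSet_empty
        · exact isLowerSet_univ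
      have := Set.ncard_le_ncard hsub (Set.toFinite _)
      rwa [Set.ncard_pair hne] at this
    have h2' : (2 : ℝ) ≤ ((Set.ncard {s : Set P | IsLowerSet s} : ℕ) : ℝ) := by exact_mod_cast h2
    obtain ⟨x, h3, h4⟩ := main P hP ((((Set.ncard {s : Set P | IsLowerSet s} : ℕ) : ℝ) + 1) / 4)
      (by linarith) (by linarith)
    refine ⟨x, ?_, ?_⟩
    · have h5 : (((Set.ncard {s : Set P | IsLowerSet s} : ℕ) : ℝ) + 1) ≤
          4 * ((Set.ncard {s : Set P | IsLowerSet s ∧ x ∈ s} : ℕ) : ℝ) := by linarith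
      exact_mod_cast h5
    · have h5 : 4 * ((Set.ncard {s : Set P | IsLowerSet s ∧ x ∈ s} : ℕ) : ℝ) + 1 ≤
          3 * ((Set.ncard {s : Set P | IsLowerSet s} : ℕ) : ℝ) := by linarith
      exact_mod_cast h5
  · intro P _ h
    exact no_crown_of_intervalDimTwo P h
  · intro P _ _ h
    exact tight_of_crownFree h
  · intro Q _ _ P _ _ _ hQ hP
    exact tight_lex Q P hQ hP
  · intro w
    exact sharp w

end Pool.Agent.Results.MP_a217f7_co.CrownFree
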