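import Pool.Agent.FewCovers.Sharp
import Pool.Agent.FewCovers.Minor

/-!
MP_a217f7_co.  Exact constants for posets with few covers.  For `k ≥ 1` let `δ_k` be the root of
`δ (1 - δ) ^ (k - 1) = (1 - 2 δ) ^ k` in `(0, 1/2)`.  A poset with `k`-sparse cuts has an element
whose proportion of order ideals lies in `[δ_k, 1 - δ_k]`, and this is best possible for `k ≤ 5`.
-/

set_option autoImplicit false

namespace Pool.Agent.Results.MP_a217f7_co.ExactConstants

open Pool.Agent.FewCovers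

theorem result :
    -- the lower bound
    (∀ (k : ℕ) (δ : ℝ), 1 ≤ k → 0 < δ → δ < 1 / 2 →
      δ * (1 - δ) ^ (k - 1) ≤ (1 - 2 * δ) ^ k →
      ∀ (P : Type) [Fintype P] [Nonempty P] [PartialOrder P], SparseCuts k P →
        ∃ x : P,
          δ * ((Set.ncard {s : Set P | IsLowerSet s} : ℕ) : ℝ) ≤
            ((Set.ncard {s : Set P | IsLowerSet s ∧ x ∈ s} : ℕ) : ℝ) ∧
          ((Set.ncard {s : Set P | IsLowerSet s ∧ x ∈ s} : ℕ) : ℝ) ≤
            (1 - δ) * ((Set.ncard {s : Set P | IsLowerSet s} : ℕ) : ℝ)) ∧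
    -- classes of posets with `k`-sparse cuts
    (∀ (k : ℕ) (P : Type) [Fintype P] [Nonempty P] [PartialOrder P],
      ((∀ y : P, Set.ncard {d : P | d ⋖ y} ≤ k) ∨
        (∀ x : P, Set.ncard {u : P | x ⋖ u} ≤ k) ∨
        (∀ A : Finset P, IsAntichain (· ≤ ·) (A : Set P) → A.card ≤ k) ∨
        ((∀ a b c : P, a < b → ¬ b < c) ∧ ∃ v : P, Set.ncard {w : P | w < v ∨ v < w} ≤ k) ∨
        SparseMinors k P) →
      SparseCuts k P) ∧
    -- sharpness
    (∀ (k : ℕ) (δ : ℝ), 1 ≤ k → k ≤ 5 → δ < 1 / 2 →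
      (1 - 2 * δ) ^ k < δ * (1 - δ) ^ (k - 1) →
      ∃ (P : Type) (_ : Fintype P) (_ : Nonempty P) (_ : PartialOrder P),
        (∀ a b c : P, a < b → ¬ b < c) ∧
        (∀ v : P, Set.ncard {w : P | w < v ∨ v < w} ≤ k) ∧
        ∀ x : P,
          ((Set.ncard {s : Set P | IsLowerSet s ∧ x ∈ s} : ℕ) : ℝ) <
            δ * ((Set.ncard {s : Set P | IsLowerSet s} : ℕ) : ℝ) ∨
          (1 - δ) * ((Set.ncard {s : Set P | IsLowerSet s} : ℕ) : ℝ) <
            ((Set.ncard {s : Set P | IsLowerSet s ∧ x ∈ s} : ℕ) : ℝ)) := by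
  refine ⟨?_, ?_, ?_⟩
  · intro k δ hk h0 h1 hδ P _ _ _ hP
    obtain ⟨x, h2, h3⟩ := central k hk δ h0 h1 hδ hP
    unfold NI NX at h2 h3
    rw [cnt_eq, cnt_eq] at h2 h3
    exact ⟨x, h2, h3⟩
  · intro k P _ _ _ h
    rcases h with h | h | h | ⟨h, v, hv⟩ | h
    · exact sparse_of_covers k (Or.inl h)
    · exact sparse_of_covers k (Or.inr h)
    · exact sparse_of_width k h
    · exact sparse_of_lengthOne k h v hv
    · exact sparse_of_minors k h
  · intro k δ hk1 hk5 h1 h2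
    obtain ⟨P, i1, i2, i3, h3, h4, h5⟩ := sharp k hk1 hk5 δ h1 h2
    refine ⟨P, i1, i2, i3, h3, h4, ?_⟩
    intro x
    have h6 := h5 x
    unfold NI NX at h6
    rw [cnt_eq, cnt_eq] at h6
    exact h6

end Pool.Agent.Results.MP_a217f7_co.ExactConstants
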