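import Pool.Agent.Narrow.FiveCut
import Pool.Agent.Narrow.Extremal

/-!
MP_a217f7_co.  Exact constants for posets of width at most one, two, three, four, five:
`1/3`, `2/7`, `4/15`, `9/35`, `1/4`.
-/

set_option autoImplicit false

namespace Pool.Agent.Results.MP_a217f7_co.ExactWidth

open Pool.Agent.Narrow

theorem result :
    ∀ (w : ℕ) (δ : ℝ),
      ((w = 1 ∧ δ = 1 / 3) ∨ (w = 2 ∧ δ = 2 / 7) ∨ (w = 3 ∧ δ = 4 / 15) ∨
        (w = 4 ∧ δ = 9 / 35) ∨ (w = 5 ∧ δ = 1 / 4)) →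
      -- every poset of width at most `w` has an element with proportion in `[δ, 1 - δ]`
      (∀ (P : Type) [Fintype P] [Nonempty P] [PartialOrder P],
        (∀ A : Finset P, IsAntichain (· ≤ ·) (A : Set P) → A.card ≤ w) →
        ∃ x : P,
          δ * ((Set.ncard {s : Set P | IsLowerSet s} : ℕ) : ℝ) ≤
            ((Set.ncard {s : Set P | IsLowerSet s ∧ x ∈ s} : ℕ) : ℝ) ∧
          ((Set.ncard {s : Set P | IsLowerSet s ∧ x ∈ s} : ℕ) : ℝ) ≤
            (1 - δ) * ((Set.ncard {s : Set P | IsLowerSet s} : ℕ) : ℝ)) ∧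
      -- and this is best possible
      (∃ (P : Type) (_ : Fintype P) (_ : Nonempty P) (_ : PartialOrder P),
        (∀ A : Finset P, IsAntichain (· ≤ ·) (A : Set P) → A.card ≤ w) ∧
        ∀ x : P,
          ((Set.ncard {s : Set P | IsLowerSet s ∧ x ∈ s} : ℕ) : ℝ) ≤
            δ * ((Set.ncard {s : Set P | IsLowerSet s} : ℕ) : ℝ) ∨
          (1 - δ) * ((Set.ncard {s : Set P | IsLowerSet s} : ℕ) : ℝ) ≤
            ((Set.ncard {s : Set P | IsLowerSet s ∧ x ∈ s} : ℕ) : ℝ)) := by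
  intro w δ hw
  refine ⟨?_, extremal w δ hw⟩
  intro P _ _ _ hP
  have key : ∀ c d : ℕ, ((w = 1 ∧ c = 1 ∧ d = 3) ∨ (w = 2 ∧ c = 2 ∧ d = 7) ∨
      (w = 3 ∧ c = 4 ∧ d = 15) ∨ (w = 4 ∧ c = 9 ∧ d = 35) ∨ (w = 5 ∧ c = 1 ∧ d = 4)) →
      δ = c / d → 0 < d →
      ∃ x : P,
          δ * ((Set.ncard {s : Set P | IsLowerSet s} : ℕ) : ℝ) ≤
            ((Set.ncard {s : Set P | IsLowerSet s ∧ x ∈ s} : ℕ) : ℝ) ∧
          ((Set.ncard {s : Set P | IsLowerSet s ∧ x ∈ s} : ℕ) : ℝ) ≤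
            (1 - δ) * ((Set.ncard {s : Set P | IsLowerSet s} : ℕ) : ℝ) := by
    intro c d hcd hδ hd
    obtain ⟨x, h1, h2⟩ := central_width5 w c d hcd hP
    have e1 : Set.ncard {s : Set P | IsLowerSet s} = (Fam P).card := by
      rw [← Set.ncard_coe_finset]
      congr 1
      ext s
      simp [mem_Fam]
    have e2 : Set.ncard {s : Set P | IsLowerSet s ∧ x ∈ s} = cin x := by
      unfold cin
      rw [← Set.ncard_coe_finset]
      congr 1
      ext s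
      simp [mem_Fam]
    have e3 := cin_add_cout x
    have hd' : (0 : ℝ) < d := by exact_mod_cast hd
    refine ⟨x, ?_, ?_⟩
    · rw [e1, e2, hδ, div_mul_eq_mul_div, div_le_iff₀ hd', mul_comm (cin x : ℝ)]
      exact_mod_cast h1
    · rw [e1, e2, hδ]
      have h3 : (c : ℝ) * ((Fam P).card : ℝ) ≤ d * (cout x : ℝ) := by exact_mod_cast h2
      have h4 : ((Fam P).card : ℝ) = cin x + cout x := by exact_mod_cast e3.symm
      have h5 : (c : ℝ) / d * ((Fam P).card : ℝ) ≤ cout x := by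
        rw [div_mul_eq_mul_div, div_le_iff₀ hd', mul_comm (cout x : ℝ)]
        exact h3
      rw [sub_mul, one_mul]
      linarith
  rcases hw with ⟨rfl, rfl⟩ | ⟨rfl, rfl⟩ | ⟨rfl, rfl⟩ | ⟨rfl, rfl⟩ | ⟨rfl, rfl⟩
  · exact key 1 3 (Or.inl ⟨rfl, rfl, rfl⟩) (by norm_num) (by norm_num)
  · exact key 2 7 (Or.inr (Or.inl ⟨rfl, rfl, rfl⟩)) (by norm_num) (by norm_num)
  · exact key 4 15 (Or.inr (Or.inr (Or.inl ⟨rfl, rfl, rfl⟩))) (by norm_num) (by norm_num)
  · exact key 9 35 (Or.inr (Or.inr (Or.inr (Or.inl ⟨rfl, rfl, rfl⟩)))) (by norm_num)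
      (by norm_num)
  · exact key 1 4 (Or.inr (Or.inr (Or.inr (Or.inr ⟨rfl, rfl, rfl⟩)))) (by norm_num)
      (by norm_num)

end Pool.Agent.Results.MP_a217f7_co.ExactWidth
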